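import Pool.Agent.R910.Mu.Companion

/-!
# Iwasawa's mu-invariant conjecture: companions of `p`-power degree of Galois extensions
-/

set_option autoImplicit false

open NumberField

namespace Pool.Agent.Results.MP_a4986b_nt.CompanionFields

open Pool.Agent.R910.Mu

/-- The statement of the problem for one prime `p` and one number field `F` (inside the algebraic
closure of `ℚ`): the `p`-adic valuation of the class number of the `m`-th layer of the cyclotomic
`Z_p`-extension of `F` is at most `C (m + 1)`. -/
def MuVanishes (p : ℕ) (F : IntermediateField ℚ Om) : Prop :=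
  ∃ C : ℕ, ∀ m : ℕ, ∀ E : IntermediateField ℚ Om,
    E ≤ IntermediateField.adjoin ℚ {z : Om | z ^ (p ^ (m + 1)) = 1} →
    Module.finrank ℚ E = p ^ m →
    padicValNat p (Nat.card (ClassGroup (𝓞 ↥(F ⊔ E)))) ≤ C * (m + 1)

/-- The number of infinite places of `k`. -/
noncomputable def places (k : IntermediateField ℚ Om) : ℕ := Nat.card (InfinitePlace k)

/-- The localized cohomology theory over the number field `k` computes the class groups. For the
Iwasawa cohomology of the twists `A(1)` of finite modules `A` this is known: the second cohomology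
of the twisted permutation module of `F` has the rank of `X(F)/p`, the number of factors
`Λ/(p ^ m_i)` of the Iwasawa module of `F`; the first equation is the Euler characteristic
formula. -/
structure ComputesClassGroups {p : ℕ} [Fact p.Prime] {k : IntermediateField ℚ Om}
    (T : LocalizedCohomology p (GalRel k)) : Prop where
  euler : T.h1 (triv p (GalRel k)) = T.h2 (triv p (GalRel k)) + places k
  zero_iff : ∀ (F : IntermediateField ℚ Om) (hF : FiniteDimensional ℚ F), k ≤ F →
    (T.h2 (permRel p k F hF) = 0 ↔ MuVanishes p F)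

/-- **Companion fields.** -/
theorem result (p : ℕ) [Fact p.Prime] (_hp : p ≠ 2) (k : IntermediateField ℚ Om)
    (hk : FiniteDimensional ℚ k) (hsol : HasSplitSolutions p (GalRel k))
    (T : LocalizedCohomology p (GalRel k)) (hT : ComputesClassGroups T)
    (K : IntermediateField ℚ Om) (hK : FiniteDimensional ℚ K) (hkK : k ≤ K)
    (hn : (relSub k K).Normal) :
    ∃ F : IntermediateField ℚ Om, FiniteDimensional ℚ F ∧ k ≤ F ∧
      Module.finrank ℚ F = p ^ ((places k + 1) * (relSub k K).index) * Module.finrank ℚ k ∧
      IsElemOver p K (F ⊔ K) ((places k + 1) * (relSub k K).index) ∧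
      (relSub k (F ⊔ K)).Normal ∧ (MuVanishes p K ↔ MuVanishes p F) := by
  obtain ⟨F, hF, hkF, hd, hel, hnn, hle, himp⟩ :=
    exists_companion hk hsol T K hK hkK hn (places k)
  refine ⟨F, hF, hkF, hd, hel, hnn, ?_⟩
  rw [← hT.zero_iff K hK hkK, ← hT.zero_iff F hF hkF]
  refine ⟨himp, fun h0 => ?_⟩
  haveI := relSub_finiteIndex k F hF
  have h1 := h2_triv_le T (relSub k F) (relSub_open k F hF)
  have h2 : T.h2 (perm p (relSub k F) (relSub_open k F hF)) = 0 := h0
  have h3 : T.h2 (triv p (GalRel k)) = 0 := by omega
  rw [h0, hT.euler, h3] at hle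
  by_contra hne
  have h4 : 1 ≤ T.h2 (permRel p k K hK) := Nat.one_le_iff_ne_zero.mpr hne
  have h5 : (places k + 1) * 1 ≤ (places k + 1) * T.h2 (permRel p k K hK) :=
    Nat.mul_le_mul_left _ h4
  omega

end Pool.Agent.Results.MP_a4986b_nt.CompanionFields
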