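import Pool.Agent.R910.Mu.Layers

/-!
# Iwasawa's mu-invariant conjecture: growth in elementary abelian extensions of a counterexample
-/

set_option autoImplicit false

open NumberField

namespace Pool.Agent.Results.MP_a4986b_nt.ExponentialGrowth

open Pool.Agent.R910.Mu

/-- The statement of the problem for one prime `p` and one number field `F` (inside the algebraic
closure of `ℚ`): the `p`-adic valuation of the class number of the `m`-th layer of the cyclotomic
`Z_p`-extension of `F` is at most `C (m + 1)`. -/
def MuVanishes (p : ℕ) (F : IntermediateField ℚ Om) : Prop :=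
  ∃ C : ℕ, ∀ m : ℕ, ∀ E : IntermediateField ℚ Om,
    E ≤ IntermediateField.adjoin ℚ {z : Om | z ^ (p ^ (m + 1)) = 1} →
    Module.finrank ℚ E = p ^ m →
    padicValNat p (Nat.card (ClassGroup (𝓞 ↥(F ⊔ E)))) ≤ C * (m + 1)

/-- The number of infinite places of `F`. -/
noncomputable def places (F : IntermediateField ℚ Om) : ℕ := Nat.card (InfinitePlace F)

/-- The cohomology theory over the number field `F` describes the class groups of the layers of
the cyclotomic `Z_p`-extension of `F`, and has the Euler characteristics of the cohomology of the
twists `A(1)` of finite modules `A`. For the Iwasawa cohomology of the twists `A(1)`, tensored with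
`F_p((T))`, this is known. -/
structure ComputesClassGroups {p : ℕ} [Fact p.Prime] {F : IntermediateField ℚ Om}
    (T : FullCohomology p (GalOver F)) : Prop where
  euler : ∀ A : GMod p (GalOver F), IsEvenOver A →
    T.h1 A = T.h2 A + places F * Module.finrank (ZMod p) A.carrier
  zero_iff : T.h2 (triv p (GalOver F)) = 0 ↔ MuVanishes p F

/-- **Growth.** For Iwasawa cohomology `T.h2 (triv p (GalOver F))` and
`T.h2 (permOver p F M hM)` are the numbers of factors `Λ/(p ^ m)` of the Iwasawa modules of `F` and
of `M`. -/
theorem result (p : ℕ) [Fact p.Prime] (hp : p ≠ 2) (F : IntermediateField ℚ Om)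
    (_hF : FiniteDimensional ℚ F) (T : FullCohomology p (GalOver F))
    (hT : ComputesClassGroups T) (b : ℕ) (M : IntermediateField ℚ Om)
    (hM : FiniteDimensional ℚ M) (hel : IsElementary p F M b) :
    (∀ j : ℕ, j ≤ b * (p - 1) →
      countEq p b j * T.h2 (triv p (GalOver F)) ≤
        T.h2 (permOver p F M hM) + places F * countLt p b j) ∧
    (¬ MuVanishes p F → ∀ j : ℕ, (places F + 3) * j ≤ b →
      (places F + 2) ^ j ≤ (places F + 1) * T.h2 (permOver p F M hM)) :=
  ⟨fun j hj => layers_over hp F T (places F) hT.euler b M hM hel j hj,
    fun h j hj => exponential_over hp F T (places F) hT.euler b M hM hel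
      (fun h0 => h (hT.zero_iff.mp h0)) j hj⟩

end Pool.Agent.Results.MP_a4986b_nt.ExponentialGrowth
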