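import Pool.Agent.R493.MU.H

/-!
# Iwasawa's `mu`-conjecture and groups of automorphisms of order prime to `p`

Let `F` be a number field and `G` a group of automorphisms of `F` of order prime to `p`. If
`mu = 0` for the fixed fields of the subgroups of prime order of `G` but not for `F`, then `G` has a
nonzero representation modulo `p` in which no element `g ≠ 1` has a nonzero fixed vector (so `G` is
trivial or a Frobenius complement), and every subgroup of `G` whose order is a product of two primes
is cyclic. There is no hypothesis besides this.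

Proof. Let `F_m = F E` be a layer of the cyclotomic tower. As the order of `G` is prime to the degree
of `E`, every `g` in `G` extends to an automorphism of `F_m` which is trivial on `E`, and the fixed
field of `g` in `F_m` is the layer of the fixed field of `g` in `F`. Let `J` be the left ideal of
`𝔽_p[G]` generated by the elements `N_h b`, `b ∈ G`, `h ∈ G` of prime order. If `J ≠ 𝔽_p[G]`, then
`𝔽_p[G] / J` is the representation. If `J = 𝔽_p[G]`, there are integers `c_i` with
`1 + p y = ∑ c_i a_i N_{h_i} b_i` in `ℤ[G]`, so the class group of `F_m` is generated modulo `p`-th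
powers by the conjugates of the images of the class groups of the layers of the fixed fields, and the
exponents of `p` in the class numbers satisfy `v(F_m) ≤ ∑ v((F ^ h_i)_m)`.
-/

set_option autoImplicit false

namespace Pool.Agent.Results.MP_a4986b_nt.MinimalCounterexamples

open NumberField

/-- The algebraic closure of `ℚ`; number fields are its finite subfields. -/
abbrev Om : Type := AlgebraicClosure ℚ

/-- `mu = 0` for the prime `p` and the number field `F`, in the form of the frozen statement: the
`p`-adic valuation of the class number of the `m`-th layer of the cyclotomic `Z_p`-extension of `F`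
is at most `C (m + 1)`. -/
def MuVanishes (p : ℕ) (F : IntermediateField ℚ Om) : Prop :=
  ∃ C : ℕ, ∀ m : ℕ, ∀ E : IntermediateField ℚ Om,
    E ≤ IntermediateField.adjoin ℚ {z : Om | z ^ (p ^ (m + 1)) = 1} →
    Module.finrank ℚ E = p ^ m →
    padicValNat p (Nat.card (ClassGroup (𝓞 ↥(F ⊔ E)))) ≤ C * (m + 1)

/-- The group of automorphisms of `F`. -/
def AutF (F : IntermediateField ℚ Om) : Type := F ≃ₐ[ℚ] F

noncomputable instance (F : IntermediateField ℚ Om) : Group (AutF F) :=
  (AlgEquiv.aut : Group (F ≃ₐ[ℚ] F))

noncomputable instance (F : IntermediateField ℚ Om) : FunLike (AutF F) F F :=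
  (AlgEquiv.instFunLike : FunLike (F ≃ₐ[ℚ] F) F F)

/-- The fixed field in `F` of a group `H` of automorphisms of `F` (the field generated by the fixed
elements). -/
noncomputable def fixedIn (F : IntermediateField ℚ Om) (H : Subgroup (AutF F)) :
    IntermediateField ℚ Om :=
  IntermediateField.adjoin ℚ {x : Om | ∃ hx : x ∈ F, ∀ h ∈ H, h ⟨x, hx⟩ = ⟨x, hx⟩}

/-- `G` has a nonzero finite dimensional representation over the field with `p` elements in which
no `g ≠ 1` has a nonzero fixed vector. -/
def HasFixedPointFreeRep (p : ℕ) [Fact p.Prime] (G : Type) [Group G] : Prop :=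
  ∃ (W : Type) (_ : AddCommGroup W) (_ : Module (ZMod p) W) (_ : FiniteDimensional (ZMod p) W)
    (ρ : Representation (ZMod p) G W), Nontrivial W ∧ ∀ g : G, g ≠ 1 → ∀ w, ρ g w = w → w = 0

/-- The automorphisms of a minimal counterexample to Iwasawa's `mu`-conjecture. -/
theorem result (p : ℕ) [Fact p.Prime] (_hp2 : p ≠ 2) (F : IntermediateField ℚ Om)
    [FiniteDimensional ℚ F] (G : Subgroup (AutF F)) (hp : ¬ p ∣ Nat.card G)
    (hF : ¬ MuVanishes p F)
    (hG : ∀ H : Subgroup (AutF F), H ≤ G → (Nat.card H).Prime → MuVanishes p (fixedIn F H)) :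
    HasFixedPointFreeRep p G ∧
    ∀ P : Subgroup (AutF F), P ≤ G → ∀ l q : ℕ, l.Prime → q.Prime →
      Nat.card P = l * q → IsCyclic P := by
  have hfin : Finite (AutF F) := inferInstanceAs (Finite (F ≃ₐ[ℚ] F))
  have h : HasFixedPointFreeRep p G := R493.MU.fpf_mu p F G hp
    (fun H hH hc => R493.MU.fixedIn_eq F H ▸ hG H hH hc) hF
  exact ⟨h, fun P hP l q hl hq hc => R493.MU.cyclic_sub p G hp h P hP l q hl hq hc⟩

end Pool.Agent.Results.MP_a4986b_nt.MinimalCounterexamples
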