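import Pool.Agent.R910.Mu.Main

/-!
# Iwasawa's mu-invariant conjecture: fields whose degree is a power of `p` suffice
-/

set_option autoImplicit false

open NumberField

namespace Pool.Agent.Results.MP_a4986b_nt.PowerDegree

open Pool.Agent.R910.Mu

/-- The statement of the problem for one prime `p` and one number field `F` (inside the algebraic
closure of `ℚ`): the `p`-adic valuation of the class number of the `m`-th layer of the cyclotomic
`Z_p`-extension of `F` is at most `C (m + 1)`. -/
def MuVanishes (p : ℕ) (F : IntermediateField ℚ Om) : Prop :=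
  ∃ C : ℕ, ∀ m : ℕ, ∀ E : IntermediateField ℚ Om,
    E ≤ IntermediateField.adjoin ℚ {z : Om | z ^ (p ^ (m + 1)) = 1} →
    Module.finrank ℚ E = p ^ m →
    padicValNat p (Nat.card (ClassGroup (𝓞 ↥(F ⊔ E)))) ≤ C * (m + 1)

/-- The localized cohomology theory computes the class groups. For the Iwasawa cohomology of the
twists `A(1)` of finite modules `A` this is known: the first cohomology of `Z/p(1)` is the limit of
the `p`-units of the layers of `ℚ` modulo `p`, of rank one, and the second cohomology of the
permutation module of `F`, twisted, has the rank of `X(F)/p`, the number of factors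
`Λ/(p ^ m_i)` of the Iwasawa module of `F`. -/
structure ComputesClassGroups {p : ℕ} [Fact p.Prime] (T : LocalizedCohomology p Gal) : Prop where
  h1_triv : T.h1 (triv p Gal) = 1
  muRank_eq_zero : ∀ (F : IntermediateField ℚ Om) (hF : FiniteDimensional ℚ F),
    muRank T F hF = 0 ↔ MuVanishes p F

/-- **Fields of `p`-power degree suffice.** -/
theorem result (p : ℕ) [Fact p.Prime] (_hp : p ≠ 2) (hsol : HasSplitSolutions p Gal)
    (T : LocalizedCohomology p Gal) (hT : ComputesClassGroups T) :
    (∀ (F : IntermediateField ℚ Om) (hF : FiniteDimensional ℚ F) (m : ℕ),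
      ∃ (F' : IntermediateField ℚ Om) (hF' : FiniteDimensional ℚ F'),
        Module.finrank ℚ F' = p ^ ((m + 1) * Module.finrank ℚ F) ∧
        (m + 1) * muRank T F hF ≤ muRank T F' hF' + 1) ∧
    (∀ F : IntermediateField ℚ Om, FiniteDimensional ℚ F →
      ∃ F' : IntermediateField ℚ Om, FiniteDimensional ℚ F' ∧
        Module.finrank ℚ F' = p ^ (2 * Module.finrank ℚ F) ∧
        (MuVanishes p F' → MuVanishes p F)) ∧
    ((∀ F : IntermediateField ℚ Om, FiniteDimensional ℚ F → MuVanishes p F) ↔
      ∀ F : IntermediateField ℚ Om, FiniteDimensional ℚ F →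
        (∃ n : ℕ, Module.finrank ℚ F = p ^ n) → MuVanishes p F) := by
  have h1 : ∀ (F : IntermediateField ℚ Om) (hF : FiniteDimensional ℚ F) (m : ℕ),
      ∃ (F' : IntermediateField ℚ Om) (hF' : FiniteDimensional ℚ F'),
        Module.finrank ℚ F' = p ^ ((m + 1) * Module.finrank ℚ F) ∧
        (m + 1) * muRank T F hF ≤ muRank T F' hF' + 1 := by
    intro F hF m
    have := exists_field_growth hsol T F hF m
    rwa [hT.h1_triv] at this
  have h2 : ∀ F : IntermediateField ℚ Om, FiniteDimensional ℚ F →
      ∃ F' : IntermediateField ℚ Om, FiniteDimensional ℚ F' ∧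
        Module.finrank ℚ F' = p ^ (2 * Module.finrank ℚ F) ∧
        (MuVanishes p F' → MuVanishes p F) := by
    intro F hF
    obtain ⟨F', hF', hd, hle⟩ := h1 F hF 1
    refine ⟨F', hF', hd, fun h => ?_⟩
    rw [← hT.muRank_eq_zero F' hF'] at h
    rw [← hT.muRank_eq_zero F hF]
    omega
  refine ⟨h1, h2, fun h F hF _ => h F hF, fun h F hF => ?_⟩
  obtain ⟨F', hF', hd, himp⟩ := h2 F hF
  exact himp (h F' hF' ⟨_, hd⟩)

end Pool.Agent.Results.MP_a4986b_nt.PowerDegree
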